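import Pool.Agent.MP_d32a63_an.H58.Spec
import Pool.Agent.MP_d32a63_an.H82.Basic

/-! The top level of the counterexample: recursion on stages and the limit. -/

open Set Filter Topology Metric
open Pool.Agent.MP_d32a63_an.H95 (Core Sec W0)
open Pool.Agent.MP_d32a63_an.H82 (MemA TrivialA Admissible)
open Pool.Agent.MP_d32a63_an.H58

namespace Pool.Agent.MP_d32a63_an.H85

theorem mem_W0 {z : ℂ} (hz : 1 < ‖z‖) : z ∈ W0 :=
  hz.trans_le (Complex.norm_le_abs_re_add_abs_im z)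

theorem open_W0 : IsOpen W0 :=
  isOpen_lt continuous_const (Complex.continuous_re.abs.add Complex.continuous_im.abs)

theorem cau_diff {g : ℂ → ℂ} (hg : Continuous g) : DifferentiableOn ℂ (cau g) (ball 0 2) := by
  have hR : (0 : NNReal) < 5 / 2 := by norm_num
  have hi : CircleIntegrable g 0 ((5 / 2 : NNReal) : ℝ) :=
    hg.continuousOn.circleIntegrable (NNReal.coe_nonneg _)
  have h := (hasFPowerSeriesOn_cauchy_integral hi hR).differentiableOn
  rw [Metric.eball_coe] at h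
  have e : ((5 / 2 : NNReal) : ℝ) = 5 / 2 := by norm_num
  rw [e] at h
  exact h.mono (ball_subset_ball (by norm_num))

/-- Bridging for ever gives the bound across every gap. -/
theorem gapOK {n : ℕ} {W : ℕ → Set ℂ} {Γ : ℕ → Set Seg} {G : ℕ → ℂ → ℂ}
    (hbr : ∀ k, Bridge n (Γ k) (W (k + 1)) (Γ (k + 1))) (hS : ∀ k, Sec n (W k) G)
    (hc : Continuous (G 0)) (k : ℕ) : GapOK (Γ k) (G 0) := by
  intro g hg
  have key : ∀ m : ℕ, ∃ g' ∈ Γ (k + m), g'.v = g.v ∧ ‖g'.p - g'.v‖ ≤ ‖g.p - g.v‖ * (1 / 4) ^ m ∧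
      ‖G 0 g.p - G 0 g'.p‖ ≤ 4 * ‖g.p - g.v‖ - 4 * (‖g.p - g.v‖ * (1 / 4) ^ m) := fun m => by
    induction m with
    | zero => exact ⟨g, hg, rfl, by simp, by simp⟩
    | succ m ih =>
      obtain ⟨g', h1, h2, h3, h4⟩ := ih
      obtain ⟨g'', k1, k2, k3, k4⟩ := hbr (k + m) g' h1
      have k5 := k4 G (hS _)
      have k6 := norm_sub_le_norm_sub_add_norm_sub (G 0 g.p) (G 0 g'.p) (G 0 g''.p)
      refine ⟨g'', k1, k2.trans h2, ?_, ?_⟩ <;> rw [pow_succ, ← mul_assoc] <;> linarith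
  choose g' _ h2 h3 h4 using key
  have h5 : Tendsto (fun m : ℕ => ‖g.p - g.v‖ * (1 / 4 : ℝ) ^ m) atTop (𝓝 0) := by
    simpa using (tendsto_pow_atTop_nhds_zero_of_lt_one (r := (1 / 4 : ℝ)) (by norm_num)
      (by norm_num)).const_mul ‖g.p - g.v‖
  have h6 : Tendsto (fun m => (g' m).p) atTop (𝓝 g.v) := by
    rw [tendsto_iff_norm_sub_tendsto_zero]
    exact squeeze_zero (fun _ => norm_nonneg _) (fun m => h2 m ▸ h3 m) h5
  have h7 : Tendsto (fun m => ‖G 0 g.p - G 0 (g' m).p‖) atTop (𝓝 ‖G 0 g.p - G 0 g.v‖) :=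
    (tendsto_const_nhds.sub ((hc.tendsto _).comp h6)).norm
  refine le_of_tendsto' h7 fun m => (h4 m).trans ?_
  have : 0 ≤ ‖g.p - g.v‖ * (1 / 4 : ℝ) ^ m := by positivity
  linarith

/-- Triviality for the complement of the union and a half plane. -/
theorem triv {n : ℕ} (hn : 1 ≤ n) {W : ℕ → Set ℂ} {Γ : ℕ → Set Seg} (hopen : ∀ k, IsOpen (W k))
    (hmono : Monotone W) (hbase : W0 ⊆ W 0)
    (hbr : ∀ k, Bridge n (Γ k) (W (k + 1)) (Γ (k + 1))) {q : ℕ → ℂ} (hq : DenseRange q) {e : ℂ}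
    (hstep : ∀ k G, Sec n (W (k + 1)) G → GapOK (Γ (k + 1)) (G 0) → LipD (W (k + 1)) e (G 0) →
      q (Nat.unpair k).1 ∈ W k → ‖q (Nat.unpair k).1‖ < 2 →
      ‖G 0 (q (Nat.unpair k).1) - cau (G 0) (q (Nat.unpair k).1)‖ ≤ 1 / ((k : ℝ) + 1))
    {O : Set ℂ} (hO : IsOpen O) (hOc : IsPreconnected O) (heO : ball e (1 / 10) ⊆ O)
    (he : ‖e‖ ≤ 1) {x : ℂ} (hxO : x ∈ O) (hx : x ∈ W0) {T : Set ℂ}
    (hT : Tᶜ = (⋃ k, W k) ∪ O) : TrivialA n T := by
  have hWo : IsOpen (⋃ k, W k) := isOpen_iUnion hopen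
  have hTo : IsOpen Tᶜ := hT ▸ hWo.union hO
  have hsub : ∀ k, W k ⊆ Tᶜ := fun k => hT ▸ (subset_iUnion W k).trans subset_union_left
  have hOT : O ⊆ Tᶜ := hT ▸ subset_union_right
  intro f hf
  obtain ⟨F, ⟨hFc, hFd, hFe⟩, hF0⟩ := hf.exists_jet (isOpen_compl_iff.1 hTo)
  have hder : ∀ j < n, ∀ z ∈ Tᶜ, HasDerivAt (F j) (F (j + 1) z) z := fun j hj z hz => by
    have h1 : AnalyticOnNhd ℂ (deriv^[j] (F 0)) Tᶜ := (hFd.analyticOnNhd hTo).iterated_deriv j
    rw [← iteratedDeriv_eq_iterate] at h1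
    rw [hFe (j + 1) hj hz, iteratedDeriv_succ]
    refine (h1 z hz).differentiableAt.hasDerivAt.congr_of_eventuallyEq ?_
    filter_upwards [hTo.mem_nhds hz] with w hw using hFe j hj.le hw
  have hM : ∃ M : ℝ, 0 < M ∧ ∀ j ≤ n, ∀ z : ℂ, ‖z‖ ≤ 3 → ‖F j z‖ ≤ M := by
    have h1 : Continuous fun z => ∑ j ∈ Finset.range (n + 1), ‖F j z‖ :=
      continuous_finsetSum _ fun j hj => (hFc j (Nat.lt_succ_iff.1 (Finset.mem_range.1 hj))).norm
    obtain ⟨M, hM⟩ := (isCompact_closedBall (0 : ℂ) 3).exists_bound_of_continuousOn h1.continuousOn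
    refine ⟨|M| + 1, by positivity, fun j hj z hz => ?_⟩
    have h2 := hM z (mem_closedBall_zero_iff.2 hz)
    have h3 : ‖F j z‖ ≤ ∑ j ∈ Finset.range (n + 1), ‖F j z‖ :=
      Finset.single_le_sum (f := fun j => ‖F j z‖) (fun _ _ => norm_nonneg _)
        (Finset.mem_range.2 (Nat.lt_succ_iff.2 hj))
    have h4 := le_abs_self M
    have h5 := Real.le_norm_self (∑ j ∈ Finset.range (n + 1), ‖F j z‖)
    linarith
  obtain ⟨M, hM0, hM⟩ := hM
  have hMc : (M : ℂ) ≠ 0 := Complex.ofReal_ne_zero.2 hM0.ne'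
  set G : ℕ → ℂ → ℂ := fun j z => F j z / M with hG
  have hGc : ∀ j ≤ n, Continuous (G j) := fun j hj => (hFc j hj).div_const _
  have hGd : ∀ j < n, ∀ z ∈ Tᶜ, HasDerivAt (G j) (G (j + 1) z) z := fun j hj z hz =>
    (hder j hj z hz).div_const _
  have hGb : ∀ j ≤ n, ∀ z : ℂ, ‖z‖ ≤ 3 → ‖G j z‖ ≤ 1 := fun j hj z hz => by
    rw [hG]
    simp only [norm_div, Complex.norm_real, Real.norm_eq_abs, abs_of_pos hM0]
    exact (div_le_one hM0).2 (hM j hj z hz)
  have hS : ∀ k, Sec n (W k) G := fun k =>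
    ⟨fun j hj => (hGc j hj).continuousOn, fun j hj z hz => hGd j hj z (hsub k hz),
      fun j hj z _ hz => hGb j hj z hz⟩
  have hL : ∀ k, LipD (W k) e (G 0) := fun k u hu v hv => by
    have h := (convex_ball e (1 / 10)).norm_image_sub_le_of_norm_hasDerivWithin_le (C := 1)
      (f := G 0) (f' := G 1) (fun z hz => (hGd 0 hn z (hOT (heO hz))).hasDerivWithinAt)
      (fun z hz => hGb 1 hn z (by
        have h1 := mem_ball_iff_norm.1 hz
        have h2 := norm_le_norm_add_norm_sub' z e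
        linarith)) hv.2 hu.2
    simpa using h
  have hc0 := hGc 0 (Nat.zero_le n)
  have hgap := gapOK hbr hS hc0
  have hrat : ∀ a, q a ∈ (⋃ k, W k) ∩ ball 0 2 → G 0 (q a) - cau (G 0) (q a) = 0 := fun a ha => by
    obtain ⟨m, hm⟩ := mem_iUnion.1 ha.1
    rw [← norm_le_zero_iff]
    refine ge_of_tendsto (tendsto_one_div_add_atTop_nhds_zero_nat (𝕜 := ℝ)) ?_
    filter_upwards [eventually_ge_atTop m] with b hb
    have h1 := Nat.right_le_pair a b
    have h2 := hstep (Nat.pair a b) G (hS _) (hgap _) (hL _)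
    rw [Nat.unpair_pair] at h2
    refine (h2 (hmono (hb.trans h1) hm) (mem_ball_zero_iff.1 ha.2)).trans ?_
    have h3 : (b : ℝ) ≤ (Nat.pair a b : ℕ) := by exact_mod_cast h1
    exact one_div_le_one_div_of_le (by positivity) (by linarith)
  have hcd := cau_diff hc0
  have hall : ∀ z ∈ (⋃ k, W k) ∩ ball 0 2, G 0 z = cau (G 0) z := fun z hz => by
    have ho : IsOpen ((⋃ k, W k) ∩ ball 0 2) := hWo.inter isOpen_ball
    have h1 : ContinuousAt (fun w => G 0 w - cau (G 0) w) z :=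
      hc0.continuousAt.sub (hcd.continuousOn.continuousAt (isOpen_ball.mem_nhds hz.2))
    by_contra hne
    have h2 := (h1.eventually_ne (sub_ne_zero.2 hne)).and (ho.mem_nhds hz)
    obtain ⟨U, hU, hUo, hzU⟩ := _root_.mem_nhds_iff.1 h2
    obtain ⟨a, ha⟩ := hq.exists_mem_open hUo ⟨z, hzU⟩
    exact (hU ha).1 (hrat a (hU ha).2)
  have hW0 : W0 ⊆ ⋃ k, W k := hbase.trans (subset_iUnion W 0)
  have hWT : (⋃ k, W k) ⊆ Tᶜ := hT ▸ subset_union_left
  classical
  set g : ℂ → ℂ := fun z => if ‖z‖ < 2 then M * cau (G 0) z else f z with hg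
  have hfg : ∀ z ∈ ⋃ k, W k, f z = g z := fun z hz => by
    rw [hg]
    by_cases h : ‖z‖ < 2
    · simp only [h, if_true]
      rw [← hall z ⟨hz, mem_ball_zero_iff.2 h⟩, ← hF0 z (hWT hz), hG]
      field_simp
    · simp only [h, if_false]
  have hgd : Differentiable ℂ g := fun z => by
    by_cases h : ‖z‖ < 2
    · have hb := isOpen_ball.mem_nhds (mem_ball_zero_iff.2 h)
      refine ((hcd.differentiableAt hb).const_mul (M : ℂ)).congr_of_eventuallyEq ?_
      filter_upwards [hb] with w hw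
      simp only [hg, mem_ball_zero_iff.1 hw, if_true]
    · have hz : z ∈ ⋃ k, W k := hW0 (mem_W0 (by linarith))
      refine (hf.1.differentiableAt (hTo.mem_nhds (hWT hz))).congr_of_eventuallyEq ?_
      filter_upwards [hWo.mem_nhds hz] with w hw using (hfg w hw).symm
  refine ⟨g, hgd, fun z hz => ?_⟩
  rw [hT] at hz
  rcases hz with hz | hz
  · exact hfg z hz
  · refine ((hf.1.mono hOT).analyticOnNhd hO).eqOn_of_preconnected_of_eventuallyEq
      (hgd.differentiableOn.analyticOnNhd hO) hOc hxO ?_ hz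
    filter_upwards [hWo.mem_nhds (hW0 hx)] with w hw using hfg w hw

/-- The limit of the jets. -/
theorem limit {n : ℕ} (hn : 1 ≤ n) {s : ℕ → Core n}
    (hE : ∀ k, Ext ((1 / 2 : ℝ) ^ k) (s k) (s (k + 1))) :
    ∃ f : ℂ → ℂ, MemA n (⋃ k, (s k).W)ᶜ f ∧ ∀ z ∈ (s 0).W, f z = (s 0).F 0 z := by
  have hmono : Monotone fun k => (s k).W := monotone_nat_of_le_succ fun k => (hE k).sub
  set F : ℕ → ℂ → ℂ := fun j z => (s 0).F j z + ∑' k, ((s (k + 1)).F j z - (s k).F j z) with hF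
  have hc : ∀ j ≤ n, Continuous (F j) := fun j hj =>
    ((s 0).cont j).add (continuous_tsum (fun k => ((s (k + 1)).cont j).sub ((s k).cont j))
      summable_geometric_two fun k z => (hE k).near j hj z)
  have he : ∀ j ≤ n, ∀ m, ∀ z ∈ (s m).W, F j z = (s m).F j z := fun j hj m z hz => by
    have h1 : ∑' k, ((s (k + 1)).F j z - (s k).F j z) =
        ∑ k ∈ Finset.range m, ((s (k + 1)).F j z - (s k).F j z) :=
      tsum_eq_sum fun k hk => sub_eq_zero.2 ((hE k).eq j hj z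
        (subset_closure (hmono (not_lt.1 fun h => hk (Finset.mem_range.2 h)) hz)))
    rw [hF]
    simp only
    rw [h1, Finset.sum_range_sub fun k => (s k).F j z]
    ring
  have hWo : IsOpen (⋃ k, (s k).W) := isOpen_iUnion fun k => (s k).isOpen
  have hd : ∀ j < n, ∀ z ∈ ⋃ k, (s k).W, HasDerivAt (F j) (F (j + 1) z) z := fun j hj z hz => by
    obtain ⟨m, hm⟩ := mem_iUnion.1 hz
    rw [he (j + 1) hj m z hm]
    refine ((s m).der j hj z hm).congr_of_eventuallyEq ?_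
    filter_upwards [(s m).isOpen.mem_nhds hm] with w hw using he j hj.le m w hw
  have hi : ∀ j ≤ n, EqOn (F j) (iteratedDeriv j (F 0)) (⋃ k, (s k).W) := fun j => by
    induction j with
    | zero => exact fun _ z _ => by simp
    | succ j ih =>
      intro hj z hz
      rw [iteratedDeriv_succ, ← (hd j hj z hz).deriv]
      refine Filter.EventuallyEq.deriv_eq ?_
      filter_upwards [hWo.mem_nhds hz] with w hw using ih (Nat.le_of_succ_le hj) hw
  refine ⟨F 0, ⟨?_, fun j hj => ⟨F j, (hc j hj).continuousOn, ?_⟩⟩, he 0 (Nat.zero_le n) 0⟩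
  · rw [compl_compl]
    exact fun z hz => (hd 0 hn z hz).differentiableAt.differentiableWithinAt
  · rw [compl_compl]
    exact hi j hj

/-- The sequence of stages. -/
theorem stages {n : ℕ} (hI : INIT n) (hS : STEP n) (z : ℕ → ℂ) :
    ∃ (s : ℕ → Core n) (Γ : ℕ → Set Seg), (s 0).W = W0 ∧ (∀ w ∈ W0, (s 0).F 0 w = w⁻¹) ∧
      ∀ k, Ext ((1 / 2 : ℝ) ^ k) (s k) (s (k + 1)) ∧
        Bridge n (Γ k) (s (k + 1)).W (Γ (k + 1)) ∧
        ∀ G, Sec n (s (k + 1)).W G → GapOK (Γ (k + 1)) (G 0) →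
          (LipD (s (k + 1)).W (3 / 5) (G 0) ∨ LipD (s (k + 1)).W (-3 / 5) (G 0)) →
          z k ∈ (s k).W → ‖z k‖ < 2 → ‖G 0 (z k) - cau (G 0) (z k)‖ ≤ 1 / ((k : ℝ) + 1) := by
  obtain ⟨s0, h0, h1⟩ := hI
  let St := {p : Core n × Set Seg // Gaps n p.1.W p.1.F p.2}
  have hst : ∀ (k : ℕ) (p : St), ∃ p' : St, Ext ((1 / 2 : ℝ) ^ k) p.1.1 p'.1.1 ∧
      Bridge n p.1.2 p'.1.1.W p'.1.2 ∧
      ∀ G, Sec n p'.1.1.W G → GapOK p'.1.2 (G 0) →
        (LipD p'.1.1.W (3 / 5) (G 0) ∨ LipD p'.1.1.W (-3 / 5) (G 0)) →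
        z k ∈ p.1.1.W → ‖z k‖ < 2 → ‖G 0 (z k) - cau (G 0) (z k)‖ ≤ 1 / ((k : ℝ) + 1) := by
    intro k p
    by_cases h : z k ∈ p.1.1.W ∧ ‖z k‖ < 2
    · obtain ⟨s', Γ', a1, a2, a3, a4⟩ := hS p.1.1 p.1.2 p.2 ((1 / 2 : ℝ) ^ k) (1 / ((k : ℝ) + 1))
        (by positivity) (by positivity) (z k) h.1 h.2
      exact ⟨⟨(s', Γ'), a2⟩, a1, a3, fun G b1 b2 b3 _ _ => a4 G b1 b2 b3⟩
    · obtain ⟨s', Γ', a1, a2, a3, -⟩ := hS p.1.1 p.1.2 p.2 ((1 / 2 : ℝ) ^ k) 1
        (by positivity) one_pos ((3 / 2 : ℝ) : ℂ)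
        (p.1.1.base (mem_W0 (by rw [Complex.norm_real]; norm_num)))
        (by rw [Complex.norm_real]; norm_num)
      exact ⟨⟨(s', Γ'), a2⟩, a1, a3, fun G _ _ _ b4 b5 => absurd ⟨b4, b5⟩ h⟩
  choose nx hnx using hst
  have hg : Gaps n s0.W s0.F ∅ :=
    ⟨finite_empty, by simp, by simp, by simp, by simp, by simp, by simp, by simp⟩
  let σ : ℕ → St := fun k => Nat.rec ⟨(s0, ∅), hg⟩ nx k
  exact ⟨fun k => (σ k).1.1, fun k => (σ k).1.2, h0, h1, fun k => hnx k (σ k)⟩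

theorem top : R_TOP := by
  intro n hn hI hS
  have hq := TopologicalSpace.denseRange_denseSeq ℂ
  obtain ⟨s, Γ, h0, h1, h⟩ := stages hI hS fun k => TopologicalSpace.denseSeq ℂ (Nat.unpair k).1
  have hmono : Monotone fun k => (s k).W := monotone_nat_of_le_succ fun k => (h k).1.sub
  have hWo : IsOpen (⋃ k, (s k).W) := isOpen_iUnion fun k => (s k).isOpen
  have o1 : IsOpen {z : ℂ | 1 / 3 < z.re} := isOpen_lt continuous_const Complex.continuous_re
  have o2 : IsOpen {z : ℂ | z.re < -1 / 3} := isOpen_lt Complex.continuous_re continuous_const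
  have o3 : IsOpen {z : ℂ | z.re < 1 / 3} := isOpen_lt Complex.continuous_re continuous_const
  have o4 : IsOpen {z : ℂ | -1 / 3 < z.re} := isOpen_lt continuous_const Complex.continuous_re
  refine ⟨(⋃ k, (s k).W)ᶜ, (⋃ k, (s k).W)ᶜ ∩ {z : ℂ | 1 / 3 < z.re}ᶜ,
    (⋃ k, (s k).W)ᶜ ∩ {z : ℂ | z.re < -1 / 3}ᶜ, hWo.isClosed_compl,
    ⟨hWo.isClosed_compl.inter o1.isClosed_compl, hWo.isClosed_compl.inter o2.isClosed_compl, ?_,
      fun p _ => ?_⟩, ?_, ?_, fun hT => ?_⟩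
  · rw [← inter_union_distrib_left, left_eq_inter]
    intro z _
    simp only [mem_union, mem_compl_iff, mem_ofPred_eq, not_lt]
    rcases le_total z.re 0 with hz | hz
    · left
      linarith
    · right
      linarith
  · rcases le_total p.re 0 with hp | hp
    · left
      refine inter_mem_nhdsWithin _ (mem_of_superset (o3.mem_nhds ?_) fun z hz => ?_)
      · simp only [mem_ofPred_eq]
        linarith
      · simp only [mem_compl_iff, mem_ofPred_eq, not_lt] at hz ⊢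
        linarith
    · right
      refine inter_mem_nhdsWithin _ (mem_of_superset (o4.mem_nhds ?_) fun z hz => ?_)
      · simp only [mem_ofPred_eq]
        linarith
      · simp only [mem_compl_iff, mem_ofPred_eq, not_lt] at hz ⊢
        linarith
  · refine triv hn (e := 3 / 5) (x := 3) (fun k => (s k).isOpen) hmono (s 0).base
      (fun k => (h k).2.1) hq (fun k G a b c => (h k).2.2 G a b (Or.inl c)) o1
      (convex_halfSpace_re_gt _).isPreconnected (fun z hz => ?_) ?_ ?_ (mem_W0 ?_)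
      (by rw [compl_inter, compl_compl, compl_compl])
    · have h2 := (Complex.abs_re_le_norm (z - 3 / 5)).trans_lt (mem_ball_iff_norm.1 hz)
      have h3 := (abs_lt.1 h2).1
      simp only [mem_ofPred_eq]
      norm_num at h3
      linarith
    · norm_num
    · norm_num
    · norm_num
  · refine triv hn (e := -3 / 5) (x := -3) (fun k => (s k).isOpen) hmono (s 0).base
      (fun k => (h k).2.1) hq (fun k G a b c => (h k).2.2 G a b (Or.inr c)) o2
      (convex_halfSpace_re_lt _).isPreconnected (fun z hz => ?_) ?_ ?_ (mem_W0 ?_)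
      (by rw [compl_inter, compl_compl, compl_compl])
    · have h2 := (Complex.abs_re_le_norm (z - -3 / 5)).trans_lt (mem_ball_iff_norm.1 hz)
      have h3 := (abs_lt.1 h2).2
      simp only [mem_ofPred_eq]
      norm_num at h3
      linarith
    · norm_num
    · norm_num
    · norm_num
  · obtain ⟨f, hf, hf0⟩ := limit hn fun k => (h k).1
    obtain ⟨g, hg, hfg⟩ := hT f hf
    rw [compl_compl] at hfg
    have h2 : (fun z => z * g z) = fun _ => (1 : ℂ) := by
      refine AnalyticOnNhd.eq_of_eventuallyEq (z₀ := 3)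
        ((differentiable_id.mul hg).differentiableOn.analyticOnNhd isOpen_univ)
        analyticOnNhd_const ?_
      filter_upwards [open_W0.mem_nhds (mem_W0 (z := 3) (by norm_num))] with z hz
      have hz0 : z ≠ 0 := by
        rintro rfl
        simp [W0] at hz
        linarith
      rw [← hfg (mem_iUnion.2 ⟨0, (s 0).base hz⟩), hf0 z ((s 0).base hz), h1 z hz,
        mul_inv_cancel₀ hz0]
    simpa using congrFun h2 0

end Pool.Agent.MP_d32a63_an.H85
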